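import Pool.Agent.H381R4.CM.Stubs

set_option autoImplicit false
open MeasureTheory Matrix Filter Topology
open scoped ENNReal BigOperators Pointwise

namespace Pool.Agent.H806CM

open Pool.Agent.H381CM

theorem gauss_int (d : ℕ) :
    Integrable (fun y : V d => Real.exp (-(∑ i, (y i) ^ 2))) ∧
    ∫ y : V d, Real.exp (-(∑ i, (y i) ^ 2)) = Real.sqrt Real.pi ^ d := by
  have h : (fun y : V d => Real.exp (-(∑ i, (y i) ^ 2)))
      = fun y : V d => ∏ i, Real.exp (-1 * (y i) ^ 2) := by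
    funext y
    rw [← Real.exp_sum]
    congr 1
    rw [← Finset.sum_neg_distrib]
    simp
  constructor
  · rw [h]
    exact MeasureTheory.Integrable.fintype_prod (f := fun _ : Fin d => fun t : ℝ => Real.exp (-1 * t ^ 2))
      (fun _ => integrable_exp_neg_mul_sq one_pos)
  · rw [h]
    rw [MeasureTheory.integral_fintype_prod_volume_eq_prod (fun _ : Fin d => fun t : ℝ => Real.exp (-1 * t ^ 2))]
    have h1 : ∀ i : Fin d, ∫ x : ℝ, Real.exp (-1 * x ^ 2) = Real.sqrt Real.pi := fun _ => by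
      rw [integral_gaussian]
      simp
    rw [Finset.prod_congr rfl fun i _ => h1 i]
    simp

open scoped MatrixOrder in
theorem exB (d : ℕ) (A : Matrix (Fin d) (Fin d) ℝ) (hA : A.PosDef) :
    ∃ B : Matrix (Fin d) (Fin d) ℝ, A = Bᴴ * B := by
  have h0 : 0 ≤ A := hA.posSemidef.nonneg
  obtain ⟨B, hB⟩ := CStarAlgebra.nonneg_iff_eq_star_mul_self.mp h0
  exact ⟨B, hB⟩

theorem T_GAU : S_GAU := by
  intro d A hA
  obtain ⟨B, hB⟩ := exB d A hA
  have hBT : A = Bᵀ * B := by simpa [Matrix.conjTranspose_eq_transpose_of_trivial] using hB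
  have hdetA : A.det = B.det ^ 2 := by
    rw [hBT, Matrix.det_mul, Matrix.det_transpose, sq]
  have hdpos : 0 < A.det := hA.det_pos
  have hBne : B.det ≠ 0 := by
    intro h0
    rw [hdetA, h0] at hdpos
    simp at hdpos
  have hq : ∀ y : V d, y ⬝ᵥ A *ᵥ y = ∑ i, (B *ᵥ y) i ^ 2 := by
    intro y
    rw [hBT, ← Matrix.mulVec_mulVec, Matrix.dotProduct_mulVec, Matrix.vecMul_transpose]
    simp [dotProduct, sq]
  obtain ⟨hi, hv⟩ := gauss_int d
  have hmap := Real.map_matrix_volume_pi_eq_smul_volume_pi hBne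
  have hmeas : Measurable (Matrix.toLin' B : V d → V d) :=
    (LinearMap.continuous_of_finiteDimensional (Matrix.toLin' B)).measurable
  have hint1 : Integrable (fun y : V d => Real.exp (-(y ⬝ᵥ A *ᵥ y))) := by
    have h1 : Integrable (fun y : V d => Real.exp (-(∑ i, (y i) ^ 2)))
        (Measure.map (Matrix.toLin' B) volume) := by
      rw [hmap]
      exact hi.smul_measure (by simp)
    have h2 := (integrable_map_measure h1.aestronglyMeasurable hmeas.aemeasurable).mp h1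
    refine h2.congr (Eventually.of_forall fun y => ?_)
    simp [hq, Function.comp]
  have hval1 : ∫ y : V d, Real.exp (-(y ⬝ᵥ A *ᵥ y)) = |B.det|⁻¹ * Real.sqrt Real.pi ^ d := by
    have h1 : ∫ y, Real.exp (-(∑ i, (y i) ^ 2)) ∂(Measure.map (Matrix.toLin' B) (volume : Measure (V d)))
        = ∫ y : V d, Real.exp (-(∑ i, ((Matrix.toLin' B) y i) ^ 2)) := by
      rw [integral_map hmeas.aemeasurable]
      have := hi.aestronglyMeasurable
      exact (Continuous.aestronglyMeasurable (by fun_prop))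
    have h2 : ∫ y : V d, Real.exp (-(y ⬝ᵥ A *ᵥ y))
        = ∫ y : V d, Real.exp (-(∑ i, ((Matrix.toLin' B) y i) ^ 2)) := by
      congr 1
      funext y
      simp [hq]
    rw [h2, ← h1, hmap, integral_smul_measure, hv]
    rw [ENNReal.toReal_ofReal (abs_nonneg _), abs_inv, smul_eq_mul]
  refine ⟨hint1, ?_, ?_⟩
  · have := hint1.mul_prod hint1
    refine this.congr (Eventually.of_forall fun q => ?_)
    simp [← Real.exp_add]
    ring
  · have hsp : ∀ q : V d × V d, Real.exp (-(q.1 ⬝ᵥ A *ᵥ q.1 + q.2 ⬝ᵥ A *ᵥ q.2))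
        = Real.exp (-(q.1 ⬝ᵥ A *ᵥ q.1)) * Real.exp (-(q.2 ⬝ᵥ A *ᵥ q.2)) := by
      intro q
      rw [← Real.exp_add]
      congr 1
      ring
    simp_rw [hsp]
    have : ∫ q : V d × V d, Real.exp (-(q.1 ⬝ᵥ A *ᵥ q.1)) * Real.exp (-(q.2 ⬝ᵥ A *ᵥ q.2))
        = (∫ y : V d, Real.exp (-(y ⬝ᵥ A *ᵥ y))) * ∫ y : V d, Real.exp (-(y ⬝ᵥ A *ᵥ y)) := by
      rw [MeasureTheory.Measure.volume_eq_prod]
      exact integral_prod_mul (fun y : V d => Real.exp (-(y ⬝ᵥ A *ᵥ y)))
        (fun y : V d => Real.exp (-(y ⬝ᵥ A *ᵥ y)))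
    rw [this, hval1, hdetA]
    have hs : Real.sqrt Real.pi ^ d * Real.sqrt Real.pi ^ d = Real.pi ^ d := by
      rw [← mul_pow, Real.mul_self_sqrt Real.pi_pos.le]
    have hb : |B.det| * |B.det| = B.det ^ 2 := by rw [abs_mul_abs_self, sq]
    have hb0 : |B.det| ≠ 0 := abs_ne_zero.mpr hBne
    rw [← hb, ← hs]
    field_simp

end Pool.Agent.H806CM
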